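import Mathlib
import Pool.Agent.H17.CoSob

set_option autoImplicit false

namespace Pool.Agent.Results.MP_8d849c_gt.NotProd
open Set Topology TopologicalSpace Pool.Agent.H17.CoSob

theorem top_univ : top univ = top {true} ⊓ top {false} := by
  unfold top
  rw [← _root_.generateFrom_union, ← image_union]
  congr 2
  ext C
  constructor
  · rintro (h | ⟨c, -, h⟩)
    · exact Or.inl (Or.inl h)
    · cases c
      · exact Or.inr (Or.inr ⟨false, rfl, h⟩)
      · exact Or.inl (Or.inr ⟨true, rfl, h⟩)
  · rintro ((h | ⟨c, -, h⟩) | (h | ⟨c, -, h⟩))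
    · exact Or.inl h
    · exact Or.inr ⟨c, trivial, h⟩
    · exact Or.inl h
    · exact Or.inr ⟨c, trivial, h⟩

theorem inducing : @IsInducing M (M × M) (top univ)
    (@instTopologicalSpaceProd M M (top {true}) (top {false})) (fun x => (x, x)) := by
  refine @IsInducing.mk M (M × M) (top univ)
    (@instTopologicalSpaceProd M M (top {true}) (top {false})) _ ?_
  rw [top_univ]
  unfold instTopologicalSpaceProd
  rw [induced_inf, induced_compose, induced_compose]
  exact congrArg₂ (· ⊓ ·) (@induced_id M (top {true})).symm (@induced_id M (top {false})).symm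

theorem not_cosober :
    ¬ @CoSober (M × M) (@instTopologicalSpaceProd M M (top {true}) (top {false})) := by
  let tP : TopologicalSpace (M × M) := @instTopologicalSpaceProd M M (top {true}) (top {false})
  have hT : @T1Space (M × M) tP :=
    @instT1SpaceProd M M (top {true}) (top {false}) (t1_top _) (t1_top _)
  have hc : ∀ K : Set M, @IsCompact M (top univ) K ↔
      @IsCompact (M × M) tP ((fun x => (x, x)) '' K) := fun K =>
    @IsInducing.isCompact_iff M (M × M) (top univ) tP K _ inducing
  intro h
  obtain ⟨x, hx⟩ := h.2 ((fun x : M => (x, x)) '' univ)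
    ⟨⟨_, (true, 0), trivial, rfl⟩, (hc _).1 univ_compact, @sat_t1 _ tP hT _, by
      intro K₁ K₂ h1 _ h2 _ hK
      have e : ∀ K : Set (M × M), K ⊆ (fun x : M => (x, x)) '' univ →
          (fun x : M => (x, x)) '' ((fun x : M => (x, x)) ⁻¹' K) = K := fun K hK =>
        image_preimage_eq_of_subset (by rwa [image_univ] at hK)
      have e1 := e K₁ (hK ▸ subset_union_left)
      have e2 := e K₂ (hK ▸ subset_union_right)
      rcases no_split (K₁ := (fun x : M => (x, x)) ⁻¹' K₁) (K₂ := (fun x : M => (x, x)) ⁻¹' K₂)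
        ((hc _).2 (e1.symm ▸ h1)) ((hc _).2 (e2.symm ▸ h2))
        (fun x => (hK.ge ⟨x, trivial, rfl⟩ : (x, x) ∈ K₁ ∪ K₂)) with h | h
      · exact Or.inl (by rw [← e1, h])
      · exact Or.inr (by rw [← e2, h])⟩
  have h1 : ∀ y : M, x = (y, y) := fun y => by
    have : (y, y) ∈ {y | x ∈ @closure _ tP {y}} := hx.le ⟨y, trivial, rfl⟩
    rw [mem_ofPred_eq, @closure_singleton _ tP hT] at this
    exact this
  have := (h1 (true, 0)).symm.trans (h1 (false, 0))
  simp at this

theorem result : ∃ (X Y : Type) (_ : TopologicalSpace X) (_ : TopologicalSpace Y),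
    CoSober X ∧ CoSober Y ∧ ¬ CoSober (X × Y) :=
  ⟨M, M, top {true}, top {false}, cosober_single true, cosober_single false, not_cosober⟩

end Pool.Agent.Results.MP_8d849c_gt.NotProd
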